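import Mathlib
import Pool.Agent.W443.J6.Stms2
import Pool.Agent.W215.J5.P1
import Pool.Agent.W930.J5.P2

/-! The degrees of a pair of generators of the polynomial ring in two variables are not in a ratio
`a : b` with `a, b ≥ 2` coprime. -/

set_option autoImplicit false

open MvPolynomial Pool.Agent.H938R2.JC Pool.Agent.W443.J5 Pool.Agent.W443.J6

namespace Pool.Agent.W290.J6

universe u

section base

variable {k : Type u} [Field k]

theorem coeff_part (w0 w1 d : ℤ) (f : MvPolynomial (Fin 2) k) (m : Fin 2 →₀ ℕ) :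
    coeff m (part w0 w1 d f) = if w0 * (m 0 : ℤ) + w1 * (m 1 : ℤ) = d then coeff m f else 0 := by
  unfold part
  rw [coeff_sum]
  simp only [coeff_monomial]
  rw [Finset.sum_ite_eq' _ m]
  by_cases h : w0 * (m 0 : ℤ) + w1 * (m 1 : ℤ) = d
  · rw [if_pos h]
    by_cases h0 : coeff m f = 0
    · rw [h0]; simp
    · rw [if_pos]
      exact Finset.mem_filter.2 ⟨mem_support_iff.2 h0, h⟩
  · rw [if_neg h, if_neg]
    intro h2
    exact h (Finset.mem_filter.1 h2).2

/-- The map `x ↦ x t`, `y ↦ y t`. -/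
noncomputable def gr : MvPolynomial (Fin 2) k →ₐ[k] Polynomial (MvPolynomial (Fin 2) k) :=
  aeval ![Polynomial.C (X 0) * Polynomial.X, Polynomial.C (X 1) * Polynomial.X]

theorem gr_monomial (m : Fin 2 →₀ ℕ) (c : k) :
    gr (monomial m c) = Polynomial.monomial (m 0 + m 1) (monomial m c) := by
  have h1 : (monomial m c : MvPolynomial (Fin 2) k) = C c * (X 0 ^ (m 0) * X 1 ^ (m 1)) := by
    rw [monomial_eq, Finsupp.prod_fintype _ _ (by simp), Fin.prod_univ_two]
  rw [gr, aeval_monomial, Finsupp.prod_fintype _ _ (by simp), Fin.prod_univ_two]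
  simp only [Matrix.cons_val_zero, Matrix.cons_val_one]
  rw [h1, ← Polynomial.C_mul_X_pow_eq_monomial, mul_pow, mul_pow, Polynomial.C_mul,
    Polynomial.C_mul, Polynomial.C_pow, Polynomial.C_pow, pow_add]
  have h2 : algebraMap k (Polynomial (MvPolynomial (Fin 2) k)) c = Polynomial.C (C c) := rfl
  rw [h2]
  ring

theorem coeff_gr (h : MvPolynomial (Fin 2) k) (n : ℕ) (m : Fin 2 →₀ ℕ) :
    coeff m ((gr h).coeff n) = if m 0 + m 1 = n then coeff m h else 0 := by
  induction h using MvPolynomial.induction_on' with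
  | monomial u a =>
    rw [gr_monomial, Polynomial.coeff_monomial]
    by_cases h1 : u 0 + u 1 = n
    · rw [if_pos h1]
      by_cases h2 : u = m
      · rw [← h2, if_pos h1]
      · rw [coeff_monomial, if_neg h2]; simp
    · rw [if_neg h1, coeff_zero]
      split_ifs with h3
      · rw [coeff_monomial, if_neg]
        intro h4
        rw [h4] at h1
        exact h1 h3
      · rfl
  | add p q hp hq =>
    rw [map_add, Polynomial.coeff_add, coeff_add, hp, hq, coeff_add]
    split_ifs <;> simp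

theorem expand_coeff (P0 P1 : Polynomial (MvPolynomial (Fin 2) k)) (a b s : ℕ) (κ κ' : k)
    (h : MvPolynomial (Fin 2) k) (hs : 1 ≤ s) (h0 : P0.natDegree ≤ a * s)
    (h1 : P1.natDegree ≤ b * s) (c0 : P0.coeff (a * s) = C κ * h ^ a)
    (c1 : P1.coeff (b * s) = C κ' * h ^ b) (Q : MvPolynomial (Fin 2) k) (W : ℕ)
    (hQ : ∀ m, coeff m Q ≠ 0 → a * m 0 + b * m 1 ≤ W) :
    (aeval ![P0, P1] Q : Polynomial (MvPolynomial (Fin 2) k)).coeff (W * s) =
      C (aeval ![κ, κ'] (part a b W Q)) * h ^ W := by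
  have key : ∀ m ∈ Q.support,
      (aeval ![P0, P1] (monomial m (coeff m Q)) : Polynomial (MvPolynomial (Fin 2) k)).coeff
        (W * s) = if a * m 0 + b * m 1 = W then
          C (aeval ![κ, κ'] (monomial m (coeff m Q))) * h ^ W else 0 := by
    intro m hm
    have hle := hQ m (mem_support_iff.1 hm)
    rw [aeval_monomial, Finsupp.prod_fintype _ _ (by simp), Fin.prod_univ_two]
    simp only [Matrix.cons_val_zero, Matrix.cons_val_one]
    have h2 : algebraMap k (Polynomial (MvPolynomial (Fin 2) k)) (coeff m Q) =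
      Polynomial.C (C (coeff m Q)) := rfl
    rw [h2, Polynomial.coeff_C_mul]
    have d0 : (P0 ^ m 0).natDegree ≤ m 0 * (a * s) := Polynomial.natDegree_pow_le_of_le _ h0
    have d1 : (P1 ^ m 1).natDegree ≤ m 1 * (b * s) := Polynomial.natDegree_pow_le_of_le _ h1
    split_ifs with hW
    · have e0 : W * s = m 0 * (a * s) + m 1 * (b * s) := by rw [← hW]; ring
      rw [e0, Polynomial.coeff_mul_add_eq_of_natDegree_le d0 d1,
        Polynomial.coeff_pow_of_natDegree_le h0, Polynomial.coeff_pow_of_natDegree_le h1, c0, c1,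
        aeval_monomial, Finsupp.prod_fintype _ _ (by simp), Fin.prod_univ_two]
      simp only [Matrix.cons_val_zero, Matrix.cons_val_one, Algebra.algebraMap_self,
        RingHom.id_apply, C_mul, C_pow]
      rw [← hW, pow_add, pow_mul, pow_mul]
      ring
    · rw [Polynomial.coeff_eq_zero_of_natDegree_lt, mul_zero]
      have h3 : a * m 0 + b * m 1 < W := lt_of_le_of_ne hle hW
      calc (P0 ^ m 0 * P1 ^ m 1).natDegree ≤ m 0 * (a * s) + m 1 * (b * s) :=
            Polynomial.natDegree_mul_le.trans (add_le_add d0 d1)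
        _ = (a * m 0 + b * m 1) * s := by ring
        _ < W * s := Nat.mul_lt_mul_of_pos_right h3 hs
  conv_lhs => rw [Q.as_sum]
  rw [map_sum, Polynomial.finsetSum_coeff, Finset.sum_congr rfl key, ← Finset.sum_filter]
  unfold part
  rw [map_sum, map_sum, Finset.sum_mul]
  apply Finset.sum_congr
  · ext m
    simp only [Finset.mem_filter]
    refine and_congr_right fun _ => ?_
    constructor
    · intro h; exact_mod_cast h
    · intro h; exact_mod_cast h
  · intro m _; rfl

theorem coeff_pderiv_one (f : MvPolynomial (Fin 2) k) (m : Fin 2 →₀ ℕ) :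
    coeff m (pderiv 1 f) = (((m 1 : ℕ) : k) + 1) * coeff (m + Finsupp.single 1 1) f := by
  have h := coeff_X_mul_pderiv (k := k) 1 f (m + Finsupp.single 1 1)
  rw [add_comm m, coeff_X_mul, add_comm _ m] at h
  rw [h]
  simp

theorem pderiv_part (w0 w1 d : ℤ) (Q : MvPolynomial (Fin 2) k) :
    pderiv 1 (part w0 w1 d Q) = part w0 w1 (d - w1) (pderiv 1 Q) := by
  ext m
  rw [coeff_pderiv_one, coeff_part, coeff_part, coeff_pderiv_one]
  have h0 : (m + Finsupp.single 1 1 : Fin 2 →₀ ℕ) 0 = m 0 := by simp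
  have h1 : (m + Finsupp.single 1 1 : Fin 2 →₀ ℕ) 1 = m 1 + 1 := by simp
  rw [h0, h1]
  by_cases h : w0 * (m 0 : ℤ) + w1 * ((m 1 + 1 : ℕ) : ℤ) = d
  · rw [if_pos h, if_pos]
    push_cast at h
    linarith
  · rw [if_neg h, if_neg, mul_zero]
    intro h2
    apply h
    push_cast
    linarith

/-- The restriction of the part of weight `d` to the line `u = κ`. -/
noncomputable def R (κ : k) (a b : ℕ) (d : ℤ) (Q : MvPolynomial (Fin 2) k) : Polynomial k :=
  aeval ![Polynomial.C κ, Polynomial.X] (part a b d Q)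

theorem R_derivative (κ : k) (a b : ℕ) (d : ℤ) (Q : MvPolynomial (Fin 2) k) :
    Polynomial.derivative (R κ a b d Q) = R κ a b (d - b) (pderiv 1 Q) := by
  unfold R
  rw [← pderiv_part]
  have h1 := H922R2.deriv_aeval (k := k)
    (Polynomial.derivative' : Derivation k (Polynomial k) (Polynomial k))
    ![Polynomial.C κ, Polynomial.X] (part a b d Q)
  rw [Fin.sum_univ_two] at h1
  simp only [Polynomial.derivative'_apply, Matrix.cons_val_zero, Matrix.cons_val_one,
    Polynomial.derivative_X, Polynomial.derivative_C, mul_one, mul_zero, zero_add] at h1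
  exact h1

theorem R_iterate (κ : k) (a b : ℕ) (d : ℤ) (Q : MvPolynomial (Fin 2) k) (n : ℕ) :
    Polynomial.derivative^[n] (R κ a b d Q) = R κ a b (d - n * b) ((pderiv 1)^[n] Q) := by
  induction n with
  | zero => simp
  | succ n ih =>
    rw [Function.iterate_succ_apply', ih, R_derivative, Function.iterate_succ_apply']
    congr 1
    push_cast
    ring

theorem R_eval (κ κ' : k) (a b : ℕ) (d : ℤ) (Q : MvPolynomial (Fin 2) k) :
    (R κ a b d Q).eval κ' = aeval ![κ, κ'] (part a b d Q) := by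
  unfold R
  rw [← Polynomial.coe_aeval_eq_eval, ← AlgHom.comp_apply]
  congr 1
  apply MvPolynomial.algHom_ext
  intro i
  fin_cases i
  · simp
  · simp

theorem R_coeff (κ : k) (a b : ℕ) (d : ℤ) (Q : MvPolynomial (Fin 2) k) (j : ℕ) :
    (R κ a b d Q).coeff j = ∑ m ∈ Q.support.filter
      (fun m => (a : ℤ) * (m 0 : ℤ) + (b : ℤ) * (m 1 : ℤ) = d),
        if m 1 = j then coeff m Q * κ ^ m 0 else 0 := by
  unfold R part
  rw [map_sum, Polynomial.finsetSum_coeff]
  apply Finset.sum_congr rfl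
  intro m _
  rw [aeval_monomial, Finsupp.prod_fintype _ _ (by simp), Fin.prod_univ_two]
  simp only [Matrix.cons_val_zero, Matrix.cons_val_one]
  rw [Polynomial.algebraMap_eq, Polynomial.coeff_C_mul, ← Polynomial.C_pow,
    Polynomial.coeff_C_mul, Polynomial.coeff_X_pow]
  by_cases h : j = m 1
  · rw [if_pos h, if_pos h.symm, mul_one]
  · rw [if_neg h, if_neg (fun h2 => h h2.symm), mul_zero, mul_zero]

theorem R_coeff_ne (κ : k) (a b : ℕ) (ha : 1 ≤ a) (hκ : κ ≠ 0) (d : ℤ)
    (Q : MvPolynomial (Fin 2) k) (m : Fin 2 →₀ ℕ) (hm : coeff m Q ≠ 0)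
    (hd : (a : ℤ) * (m 0 : ℤ) + (b : ℤ) * (m 1 : ℤ) = d) : (R κ a b d Q).coeff (m 1) ≠ 0 := by
  rw [R_coeff, Finset.sum_eq_single m]
  · rw [if_pos rfl]
    exact mul_ne_zero hm (pow_ne_zero _ hκ)
  · intro m' hm' hne
    rw [if_neg]
    intro h1
    apply hne
    have h2 := (Finset.mem_filter.1 hm').2
    rw [ext_iff']
    refine ⟨?_, h1⟩
    rw [h1, ← hd] at h2
    have h3 : (a : ℤ) * (m' 0 : ℤ) = a * m 0 := by linarith
    have h4 : (a : ℤ) ≠ 0 := by positivity
    exact_mod_cast mul_left_cancel₀ h4 h3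
  · intro h
    exact absurd (Finset.mem_filter.2 ⟨mem_support_iff.2 hm, hd⟩) h

theorem R_exists (κ : k) (a b : ℕ) (d : ℤ) (Q : MvPolynomial (Fin 2) k) (j : ℕ)
    (hj : (R κ a b d Q).coeff j ≠ 0) : ∃ i : ℕ, (a : ℤ) * (i : ℤ) + (b : ℤ) * (j : ℤ) = d := by
  rw [R_coeff] at hj
  obtain ⟨m, hm, hne⟩ := Finset.exists_ne_zero_of_sum_ne_zero hj
  have h1 : m 1 = j := by
    by_contra h
    exact hne (if_neg h)
  refine ⟨m 0, ?_⟩
  rw [← h1]
  exact (Finset.mem_filter.1 hm).2

theorem iter_bound (a b W : ℕ) (P : MvPolynomial (Fin 2) k)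
    (hP : ∀ m, coeff m P ≠ 0 → a * m 0 + b * m 1 ≤ W) (n : ℕ) :
    ∀ m, coeff m ((pderiv 1)^[n] P) ≠ 0 → a * m 0 + b * m 1 + n * b ≤ W := by
  induction n with
  | zero => intro m hm; simpa using hP m hm
  | succ n ih =>
    intro m hm
    rw [Function.iterate_succ_apply', coeff_pderiv_one] at hm
    have h1 := ih _ (right_ne_zero_of_mul hm)
    have h0 : (m + Finsupp.single 1 1 : Fin 2 →₀ ℕ) 0 = m 0 := by simp
    have h2 : (m + Finsupp.single 1 1 : Fin 2 →₀ ℕ) 1 = m 1 + 1 := by simp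
    rw [h0, h2] at h1
    calc a * m 0 + b * m 1 + (n + 1) * b = a * m 0 + b * (m 1 + 1) + n * b := by ring
      _ ≤ W := h1

theorem coeff_XX (h : MvPolynomial (Fin 2) k) (m : Fin 2 →₀ ℕ) :
    coeff (m + e 1 1) (X 0 * X 1 * h) = coeff m h := by
  have h1 : (X 0 * X 1 : MvPolynomial (Fin 2) k) = monomial (e 1 1) 1 := by
    rw [e, X, X, monomial_mul, mul_one]
  rw [h1, add_comm, coeff_monomial_mul, one_mul]

theorem J_bound (f h : MvPolynomial (Fin 2) k) (p q : ℤ)
    (hf : ∀ m, coeff m f ≠ 0 → (m 0 : ℤ) + (m 1 : ℤ) ≤ p)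
    (hh : ∀ m, coeff m h ≠ 0 → (m 0 : ℤ) + (m 1 : ℤ) ≤ q) :
    ∀ m, coeff m (J f h) ≠ 0 → (m 0 : ℤ) + (m 1 : ℤ) ≤ p + q - 2 := by
  intro m hm
  rw [← coeff_XX, coeff_XXJ] at hm
  obtain ⟨x, hx, hne⟩ := Finset.exists_ne_zero_of_sum_ne_zero hm
  have h1 := right_ne_zero_of_mul hne
  have h2 := hf _ (left_ne_zero_of_mul h1)
  have h3 := hh _ (right_ne_zero_of_mul h1)
  have hx' : x.1 + x.2 = m + e 1 1 := Finset.HasAntidiagonal.mem_antidiagonal.1 hx
  have e0 := DFunLike.congr_fun hx' 0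
  have e1 := DFunLike.congr_fun hx' 1
  simp only [Finsupp.add_apply, e_zero, e_one] at e0 e1
  omega

theorem J_top (f g : MvPolynomial (Fin 2) k) (p q : ℕ) (c : k) (hJ : J f g = C c)
    (hf : ∀ m, coeff m f ≠ 0 → m 0 + m 1 ≤ p) (hg : ∀ m, coeff m g ≠ 0 → m 0 + m 1 ≤ q)
    (hpq : 2 < p + q) : J ((gr f).coeff p) ((gr g).coeff q) = 0 := by
  have h0 : (X 0 * X 1 : MvPolynomial (Fin 2) k) ≠ 0 := mul_ne_zero (X_ne_zero _) (X_ne_zero _)
  apply mul_left_cancel₀ h0
  rw [mul_zero]
  ext m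
  rw [coeff_XXJ, coeff_zero]
  by_cases hm : m 0 + m 1 = p + q
  · have h1 := coeff_XXJ f g m
    rw [hJ, coeff_XX_C, if_neg] at h1
    · rw [h1]
      apply Finset.sum_congr rfl
      intro x hx
      congr 1
      rw [coeff_gr, coeff_gr]
      have hx' : x.1 + x.2 = m := Finset.HasAntidiagonal.mem_antidiagonal.1 hx
      by_cases h2 : coeff x.1 f = 0
      · rw [h2]; simp
      by_cases h3 : coeff x.2 g = 0
      · rw [h3]; simp
      have h4 := hf _ h2
      have h5 := hg _ h3
      have e0 := DFunLike.congr_fun hx' 0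
      have e1 := DFunLike.congr_fun hx' 1
      simp only [Finsupp.add_apply] at e0 e1
      rw [if_pos (by omega), if_pos (by omega)]
    · intro h
      rw [h] at hm
      simp only [e_zero, e_one] at hm
      omega
  · apply Finset.sum_eq_zero
    intro x hx
    have hx' : x.1 + x.2 = m := Finset.HasAntidiagonal.mem_antidiagonal.1 hx
    have e0 := DFunLike.congr_fun hx' 0
    have e1 := DFunLike.congr_fun hx' 1
    simp only [Finsupp.add_apply] at e0 e1
    rw [coeff_gr, coeff_gr]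
    by_cases h2 : x.1 0 + x.1 1 = p
    · rw [if_neg (show ¬ (x.2 0 + x.2 1 = q) by omega)]; simp
    · rw [if_neg h2]; simp

theorem J_pow (F G : MvPolynomial (Fin 2) k) (a b : ℕ) :
    J (G ^ a) (F ^ b) = (a : MvPolynomial (Fin 2) k) * b * G ^ (a - 1) * F ^ (b - 1) * J G F := by
  unfold J
  simp only [Derivation.leibniz_pow, smul_eq_mul, nsmul_eq_mul]
  ring

theorem gr_hom (f : MvPolynomial (Fin 2) k) (n : ℕ) : ((gr f).coeff n).IsHomogeneous n := by
  intro d hd
  rw [coeff_gr] at hd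
  have h1 : d 0 + d 1 = n := by
    by_contra h
    exact hd (if_neg h)
  rw [← h1]
  simp [Finsupp.weight_apply, Finsupp.sum_fintype]

theorem hom_sum {F : MvPolynomial (Fin 2) k} {n : ℕ} (hF : F.IsHomogeneous n) (m : Fin 2 →₀ ℕ)
    (hm : coeff m F ≠ 0) : m 0 + m 1 = n := by
  have h1 := hF hm
  rw [← h1]
  simp [Finsupp.weight_apply, Finsupp.sum_fintype]

theorem gr_natDegree (f : MvPolynomial (Fin 2) k) (n : ℕ)
    (hf : ∀ m, coeff m f ≠ 0 → m 0 + m 1 ≤ n) : (gr f).natDegree ≤ n := by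
  rw [Polynomial.natDegree_le_iff_coeff_eq_zero]
  intro j hj
  ext m
  rw [coeff_gr, coeff_zero]
  split_ifs with h
  · by_contra h2
    have := hf m h2
    omega
  · rfl

end base

section charzero

variable {k : Type u} [Field k] [CharZero k]

theorem mult_expand (a : ℕ) (ha : 1 ≤ a) (y : k) (hy : y ≠ 0) (n : ℕ) :
    ∀ S : Polynomial k, S ≠ 0 → S.natDegree ≤ n →
      (Polynomial.expand k a S).rootMultiplicity y ≤ S.natDegree := by
  induction n with
  | zero =>
    intro S hS hn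
    have h1 : S = Polynomial.C (S.coeff 0) := Polynomial.eq_C_of_natDegree_le_zero hn
    rw [h1, Polynomial.expand_C, Polynomial.rootMultiplicity_C]
    exact Nat.zero_le _
  | succ n ih =>
    intro S hS hn
    by_cases hr : S.IsRoot (y ^ a)
    · obtain ⟨T, hT⟩ := Polynomial.dvd_iff_isRoot.2 hr
      have hT0 : T ≠ 0 := by
        rintro rfl
        rw [mul_zero] at hT
        exact hS hT
      have hX0 : (Polynomial.X - Polynomial.C (y ^ a) : Polynomial k) ≠ 0 :=
        Polynomial.X_sub_C_ne_zero _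
      have hdeg : S.natDegree = 1 + T.natDegree := by
        rw [hT, Polynomial.natDegree_mul hX0 hT0, Polynomial.natDegree_X_sub_C]
      have ih1 := ih T hT0 (by omega)
      have he : Polynomial.expand k a S =
          (Polynomial.X ^ a - Polynomial.C (y ^ a)) * Polynomial.expand k a T := by
        rw [hT, map_mul, map_sub, Polynomial.expand_X, Polynomial.expand_C]
      have hE0 : Polynomial.expand k a T ≠ 0 := (Polynomial.expand_ne_zero (by omega)).2 hT0
      have hsep : (Polynomial.X ^ a - Polynomial.C (y ^ a) : Polynomial k).Separable := by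
        apply Polynomial.separable_X_pow_sub_C
        · exact_mod_cast (show a ≠ 0 by omega)
        · exact pow_ne_zero _ hy
      have hm1 := Polynomial.rootMultiplicity_le_one_of_separable hsep y
      have hne : (Polynomial.X ^ a - Polynomial.C (y ^ a) : Polynomial k) *
          Polynomial.expand k a T ≠ 0 := mul_ne_zero hsep.ne_zero hE0
      rw [he, Polynomial.rootMultiplicity_mul hne, hdeg]
      omega
    · have h1 : (Polynomial.expand k a S).rootMultiplicity y = 0 := by
        apply Polynomial.rootMultiplicity_eq_zero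
        rwa [Polynomial.IsRoot.def, Polynomial.expand_eval]
      rw [h1]
      exact Nat.zero_le _

theorem mult_bound (a : ℕ) (ha : 1 ≤ a) (y : k) (hy : y ≠ 0) (S : Polynomial k) (hS : S ≠ 0)
    (hc : ∀ i j, S.coeff i ≠ 0 → S.coeff j ≠ 0 → i ≡ j [MOD a]) :
    a * S.rootMultiplicity y ≤ S.natDegree := by
  obtain ⟨j0, hj0⟩ : ∃ j0, j0 = S.natTrailingDegree := ⟨_, rfl⟩
  have hj1 : S.coeff j0 ≠ 0 := by
    rw [hj0]
    exact Polynomial.trailingCoeff_nonzero_iff_nonzero.2 hS
  obtain ⟨T, hT⟩ : ∃ T : Polynomial k, T = Polynomial.contract a (Polynomial.divX^[j0] S) :=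
    ⟨_, rfl⟩
  have hdiv : ∀ (n : ℕ) (U : Polynomial k) (i : ℕ), (Polynomial.divX^[n] U).coeff i =
      U.coeff (i + n) := by
    intro n
    induction n with
    | zero => intro U i; rfl
    | succ n ih =>
      intro U i
      rw [Function.iterate_succ_apply', Polynomial.coeff_divX, ih]
      congr 1
      ring
  have hTc : ∀ n, T.coeff n = S.coeff (n * a + j0) := by
    intro n
    rw [hT, Polynomial.coeff_contract (by omega), hdiv]
  have hST : S = Polynomial.X ^ j0 * Polynomial.expand k a T := by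
    ext i
    rw [Polynomial.coeff_X_pow_mul']
    by_cases h1 : j0 ≤ i
    · rw [if_pos h1, Polynomial.coeff_expand (by omega)]
      by_cases h2 : a ∣ i - j0
      · rw [if_pos h2, hTc, Nat.div_mul_cancel h2, Nat.sub_add_cancel h1]
      · rw [if_neg h2]
        by_contra h3
        apply h2
        exact (Nat.modEq_iff_dvd' h1).1 (hc _ _ hj1 h3)
    · rw [if_neg h1]
      apply Polynomial.coeff_eq_zero_of_lt_natTrailingDegree
      omega
  have hT0 : T ≠ 0 := by
    rintro rfl
    rw [map_zero, mul_zero] at hST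
    exact hS hST
  have hE0 : Polynomial.expand k a T ≠ 0 := (Polynomial.expand_ne_zero (by omega)).2 hT0
  have hX0 : (Polynomial.X ^ j0 : Polynomial k) ≠ 0 := pow_ne_zero _ Polynomial.X_ne_zero
  have hX1 : (Polynomial.X ^ j0 : Polynomial k).rootMultiplicity y = 0 := by
    apply Polynomial.rootMultiplicity_eq_zero
    rw [Polynomial.IsRoot.def, Polynomial.eval_pow, Polynomial.eval_X]
    exact pow_ne_zero _ hy
  have h1 := mult_expand a ha y hy _ T hT0 le_rfl
  rw [hST, Polynomial.rootMultiplicity_mul (mul_ne_zero hX0 hE0), hX1, zero_add,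
    Polynomial.natDegree_mul hX0 hE0, Polynomial.natDegree_expand]
  calc a * (Polynomial.expand k a T).rootMultiplicity y ≤ a * T.natDegree :=
        Nat.mul_le_mul_left _ h1
    _ = T.natDegree * a := mul_comm _ _
    _ ≤ _ := Nat.le_add_left _ _

/-- The leading forms are powers of one polynomial. -/
theorem leading (F G : MvPolynomial (Fin 2) k) (a b s : ℕ) (ha : 2 ≤ a) (hb : 2 ≤ b)
    (hab : Nat.Coprime a b) (hs : 1 ≤ s) (hF : F.IsHomogeneous (a * s))
    (hG : G.IsHomogeneous (b * s)) (hF0 : F ≠ 0) (hG0 : G ≠ 0) (hJ : J F G = 0) :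
    ∃ (κ κ' : k) (h : MvPolynomial (Fin 2) k), κ ≠ 0 ∧ κ' ≠ 0 ∧ h ≠ 0 ∧ F = C κ * h ^ a ∧
      G = C κ' * h ^ b := by
  have hJ2 : J (G ^ a) (F ^ b) = 0 := by
    rw [J_pow, J_swap, hJ]; simp
  obtain ⟨l, hl⟩ := Pool.Agent.W215.J5.p1 k (G ^ a) (F ^ b) 1 1 ((a * b * s : ℕ) : ℤ)
    (by positivity)
    (by
      intro m hm
      have := hom_sum (hG.pow a) m hm
      push_cast
      zify at this
      linarith)
    (by
      intro m hm
      have := hom_sum (hF.pow b) m hm
      push_cast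
      zify at this
      linarith) hJ2 (pow_ne_zero _ hF0)
  have hl0 : l ≠ 0 := by
    rintro rfl
    rw [C_0, zero_mul] at hl
    exact pow_ne_zero _ hG0 hl
  obtain ⟨κ, h, hκ, hFh⟩ := Pool.Agent.W930.J5.p2 k F G l⁻¹ a b (inv_ne_zero hl0) (by omega) hab
    hF0 (by rw [hl, ← mul_assoc, ← C_mul, inv_mul_cancel₀ hl0, C_1, one_mul])
  have hh0 : h ≠ 0 := by
    rintro rfl
    rw [zero_pow (by omega), mul_zero] at hFh
    exact hF0 hFh
  have hG1 : G ^ a = C (l * κ ^ b) * (h ^ b) ^ a := by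
    rw [hl, hFh, mul_pow, C_mul, C_pow, ← pow_mul, ← pow_mul]
    ring
  have hdvd : h ^ b ∣ G := by
    rw [← IsIntegrallyClosed.pow_dvd_pow_iff (show a ≠ 0 by omega), hG1]
    exact dvd_mul_left _ _
  obtain ⟨r, hr⟩ := hdvd
  have hra : r ^ a = C (l * κ ^ b) := by
    have h1 : (h ^ b) ^ a ≠ 0 := pow_ne_zero _ (pow_ne_zero _ hh0)
    apply mul_left_cancel₀ h1
    rw [← mul_pow, ← hr, hG1, mul_comm]
  have hunit : IsUnit r := by
    have h1 : IsUnit (r ^ a) := by
      rw [hra]
      exact (IsUnit.mk0 _ (mul_ne_zero hl0 (pow_ne_zero _ hκ))).map C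
    exact (isUnit_pow_iff (show a ≠ 0 by omega)).1 h1
  obtain ⟨κ', hκ', hrk⟩ := MvPolynomial.isUnit_iff_eq_C_of_isReduced.1 hunit
  exact ⟨κ, κ', h, hκ, hκ'.ne_zero, hh0, hFh, by rw [hr, hrk, mul_comm]⟩

omit [CharZero k] in
/-- The upper bound for the degrees. -/
theorem upper (f g : MvPolynomial (Fin 2) k) (c : k) (hc : c ≠ 0) (hJ : J f g = C c) (D : ℤ)
    (hf : ∀ m, coeff m f ≠ 0 → (m 0 : ℤ) + (m 1 : ℤ) ≤ D) (P : MvPolynomial (Fin 2) k)
    (hP : aeval ![f, g] P = (X 0 : MvPolynomial (Fin 2) k)) (n : ℕ) :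
    ∀ m, coeff m (aeval ![f, g] ((pderiv 1)^[n] P) : MvPolynomial (Fin 2) k) ≠ 0 →
      (m 0 : ℤ) + (m 1 : ℤ) ≤ 1 + n * (D - 2) := by
  induction n with
  | zero =>
    intro m hm
    rw [Function.iterate_zero, id, hP, coeff_X] at hm
    have h1 : Finsupp.single 0 1 = m := by
      by_contra h
      exact hm (if_neg h)
    rw [← h1]
    simp
  | succ n ih =>
    have h1 : (aeval ![f, g] ((pderiv 1)^[n + 1] P) : MvPolynomial (Fin 2) k) =
        C c⁻¹ * J f (aeval ![f, g] ((pderiv 1)^[n] P)) := by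
      have h2 := J_aeval ![f, g] (X 0) ((pderiv 1)^[n] P)
      rw [aeval_X] at h2
      simp only [Matrix.cons_val_zero, Matrix.cons_val_one] at h2
      rw [hJ] at h2
      have h3 : J (X 0) ((pderiv 1)^[n] P) = (pderiv 1)^[n + 1] P := by
        rw [Function.iterate_succ_apply']
        unfold J
        simp [pderiv_X]
      rw [h3] at h2
      rw [h2, mul_comm _ (C c), ← mul_assoc, ← C_mul, inv_mul_cancel₀ hc, C_1, one_mul]
    intro m hm
    rw [h1, coeff_C_mul] at hm
    have h4 := J_bound f _ D _ hf ih m (right_ne_zero_of_mul hm)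
    push_cast
    linarith

theorem arith0 (a b i j : ℕ) (ha : 2 ≤ a) (hb : 2 ≤ b) (h : 1 = a * i + b * j) : False := by
  rcases Nat.eq_zero_or_pos i with h4 | h4
  · rcases Nat.eq_zero_or_pos j with h5 | h5
    · rw [h4, h5] at h
      omega
    · have := Nat.mul_le_mul hb h5
      omega
  · have := Nat.mul_le_mul ha h4
    omega

theorem arith1 (a b s n W : ℤ) (ha : 2 ≤ a) (hb : 2 ≤ b) (hs : 1 ≤ s) (hn : 1 ≤ n)
    (hW : a * b * n ≤ W + n * b) (h : W * s ≤ 1 + n * (a * s - 2)) : False := by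
  have k1 : (a * b * n - n * b) * s ≤ W * s :=
    mul_le_mul_of_nonneg_right (by linarith) (by linarith)
  have k2 : n * (s * (a * b - a - b) + 2) ≤ 1 := by
    calc n * (s * (a * b - a - b) + 2) = (a * b * n - n * b) * s - n * (a * s - 2) := by ring
      _ ≤ 1 := by linarith
  have k3 : (0 : ℤ) ≤ a * b - a - b := by nlinarith
  have k4 : (0 : ℤ) ≤ s * (a * b - a - b) := mul_nonneg (by linarith) k3
  nlinarith

theorem ng (f g : MvPolynomial (Fin 2) k) (a b s : ℕ) (c : k) (ha : 2 ≤ a) (hb : 2 ≤ b)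
    (hab : Nat.Coprime a b) (hs : 1 ≤ s) (hc : c ≠ 0) (hJ : J f g = C c)
    (hf : Top 1 1 (a * s) f) (hg : Top 1 1 (b * s) g) : ¬ Good f g := by
  intro hG
  obtain ⟨hf1, mf, hmf, hmf2⟩ := hf
  obtain ⟨hg1, mg, hmg, hmg2⟩ := hg
  have hf2 : ∀ m, coeff m f ≠ 0 → m 0 + m 1 ≤ a * s := by
    intro m hm
    have := hf1 m hm
    zify
    linarith
  have hg2 : ∀ m, coeff m g ≠ 0 → m 0 + m 1 ≤ b * s := by
    intro m hm
    have := hg1 m hm
    zify
    linarith
  have hmf3 : mf 0 + mf 1 = a * s := by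
    zify
    linarith
  have hmg3 : mg 0 + mg 1 = b * s := by
    zify
    linarith
  have hF0 : (gr f).coeff (a * s) ≠ 0 := by
    intro h
    have h1 := coeff_gr f (a * s) mf
    rw [h, if_pos hmf3, coeff_zero] at h1
    exact hmf h1.symm
  have hG0 : (gr g).coeff (b * s) ≠ 0 := by
    intro h
    have h1 := coeff_gr g (b * s) mg
    rw [h, if_pos hmg3, coeff_zero] at h1
    exact hmg h1.symm
  have has : 2 ≤ a * s := by nlinarith
  have hbs : 2 ≤ b * s := by nlinarith
  obtain ⟨κ, κ', h, hκ, hκ', hh0, hFh, hGh⟩ := leading _ _ a b s ha hb hab hs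
    (gr_hom f _) (gr_hom g _) hF0 hG0 (J_top f g _ _ c hJ hf2 hg2 (by omega))
  obtain ⟨P, hP⟩ : ∃ P : MvPolynomial (Fin 2) k,
      aeval ![f, g] P = (X 0 : MvPolynomial (Fin 2) k) := by
    have hX : (X 0 : MvPolynomial (Fin 2) k) ∈ Algebra.adjoin k {f, g} := by rw [hG]; trivial
    have h1 : ({f, g} : Set (MvPolynomial (Fin 2) k)) = Set.range ![f, g] := by
      ext x
      simp only [Set.mem_insert_iff, Set.mem_singleton_iff, Set.mem_range, Fin.exists_fin_two,
        Matrix.cons_val_zero, Matrix.cons_val_one]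
      constructor
      · rintro (h | h)
        · exact Or.inl h.symm
        · exact Or.inr h.symm
      · rintro (h | h)
        · exact Or.inl h.symm
        · exact Or.inr h.symm
    rw [h1, Algebra.adjoin_range_eq_range_aeval] at hX
    exact hX
  have hP0 : P ≠ 0 := by
    rintro rfl
    rw [map_zero] at hP
    exact X_ne_zero _ hP.symm
  obtain ⟨ms, hms, hmax⟩ := Finset.exists_max_image P.support (fun m => a * m 0 + b * m 1)
    (support_nonempty.2 hP0)
  obtain ⟨W, hW⟩ : ∃ W, W = a * ms 0 + b * ms 1 := ⟨_, rfl⟩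
  have hPW : ∀ m, coeff m P ≠ 0 → a * m 0 + b * m 1 ≤ W := by
    intro m hm
    rw [hW]
    exact hmax m (mem_support_iff.2 hm)
  have hWz : (a : ℤ) * (ms 0 : ℤ) + (b : ℤ) * (ms 1 : ℤ) = (W : ℤ) := by
    rw [hW]; push_cast; ring
  have hR0 : (R κ a b (W : ℤ) P).coeff (ms 1) ≠ 0 :=
    R_coeff_ne κ a b (by omega) hκ _ P ms (mem_support_iff.1 hms) hWz
  have hR : R κ a b (W : ℤ) P ≠ 0 := by
    intro h
    rw [h, Polynomial.coeff_zero] at hR0
    exact hR0 rfl
  obtain ⟨ee, hee⟩ : ∃ ee, ee = (R κ a b (W : ℤ) P).rootMultiplicity κ' := ⟨_, rfl⟩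
  have hmb : a * ee ≤ (R κ a b (W : ℤ) P).natDegree := by
    rw [hee]
    apply mult_bound a (by omega) κ' hκ' _ hR
    intro i j hi hj
    obtain ⟨i1, hi1⟩ := R_exists κ a b _ P i hi
    obtain ⟨j1, hj1⟩ := R_exists κ a b _ P j hj
    have h1 : a * i1 + b * i = a * j1 + b * j := by
      zify
      linarith
    have h2 : b * i ≡ b * j [MOD a] := by
      have h3 : a * i1 + b * i ≡ a * j1 + b * j [MOD a] := by rw [h1]
      rw [Nat.ModEq, Nat.mul_add_mod, Nat.mul_add_mod] at h3
      exact h3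
    exact Nat.ModEq.cancel_left_of_coprime hab h2
  have hWe : a * b * ee ≤ W := by
    obtain ⟨i, hi⟩ := R_exists κ a b _ P _ (Polynomial.leadingCoeff_ne_zero.2 hR)
    have h1 : a * i + b * (R κ a b (W : ℤ) P).natDegree = W := by
      zify
      linarith
    calc a * b * ee = b * (a * ee) := by ring
      _ ≤ b * (R κ a b (W : ℤ) P).natDegree := Nat.mul_le_mul_left _ hmb
      _ ≤ W := by omega
  have hev : (Polynomial.derivative^[ee] (R κ a b (W : ℤ) P)).eval κ' ≠ 0 := by
    rw [hee, Polynomial.eval_iterate_derivative_rootMultiplicity, nsmul_eq_mul]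
    apply mul_ne_zero
    · exact_mod_cast Nat.factorial_ne_zero _
    · exact Polynomial.eval_divByMonic_pow_rootMultiplicity_ne_zero κ' hR
  rw [R_iterate, R_eval] at hev
  have hle : ee * b ≤ W := by nlinarith
  obtain ⟨W', hW'⟩ : ∃ W', W' + ee * b = W := ⟨W - ee * b, by omega⟩
  have hW'z : ((W : ℤ) - ee * b) = (W' : ℤ) := by
    rw [← hW']; push_cast; ring
  rw [hW'z] at hev
  have hQ : ∀ m, coeff m ((pderiv 1)^[ee] P) ≠ 0 → a * m 0 + b * m 1 ≤ W' := by
    intro m hm
    have := iter_bound a b W P hPW ee m hm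
    omega
  have hexp := expand_coeff (gr f) (gr g) a b s κ κ' h hs (gr_natDegree f _ hf2)
    (gr_natDegree g _ hg2) hFh hGh ((pderiv 1)^[ee] P) W' hQ
  have hcomp : (aeval ![gr f, gr g] ((pderiv 1)^[ee] P) : Polynomial (MvPolynomial (Fin 2) k)) =
      gr (aeval ![f, g] ((pderiv 1)^[ee] P)) := by
    rw [← AlgHom.comp_apply]
    congr 1
    apply MvPolynomial.algHom_ext
    intro i
    fin_cases i
    · simp
    · simp
  rw [hcomp] at hexp
  have hne : (gr (aeval ![f, g] ((pderiv 1)^[ee] P))).coeff (W' * s) ≠ 0 := by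
    rw [hexp]
    exact mul_ne_zero (by rwa [Ne, C_eq_zero]) (pow_ne_zero _ hh0)
  obtain ⟨m, hm⟩ := MvPolynomial.ne_zero_iff.1 hne
  rw [coeff_gr] at hm
  have hm1 : m 0 + m 1 = W' * s := by
    by_contra h
    exact hm (if_neg h)
  rw [if_pos hm1] at hm
  rcases Nat.eq_zero_or_pos ee with h0 | h0
  · rw [h0, Function.iterate_zero, id, hP, coeff_X] at hm
    have h1 : Finsupp.single 0 1 = m := by
      by_contra h
      exact hm (if_neg h)
    rw [← h1] at hm1
    simp only [Finsupp.single_eq_same, Finsupp.single_apply] at hm1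
    have h2 : W' * s = 1 := by simpa using hm1.symm
    have h3 : W' = 1 := Nat.eq_one_of_mul_eq_one_right h2
    rw [h0, h3] at hW'
    rw [hW] at hW'
    exact arith0 a b (ms 0) (ms 1) ha hb (by omega)
  · have hup := upper f g c hc hJ ((a * s : ℕ) : ℤ) (by
      intro m hm
      exact_mod_cast hf2 m hm) P hP ee m hm
    have hm2 : (m 0 : ℤ) + (m 1 : ℤ) = W' * s := by exact_mod_cast hm1
    rw [hm2] at hup
    have hWe' : (a : ℤ) * b * ee ≤ W' + ee * b := by
      have : a * b * ee ≤ W' + ee * b := by rw [hW']; exact hWe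
      exact_mod_cast this
    have haz : (2 : ℤ) ≤ a := by exact_mod_cast ha
    have hbz : (2 : ℤ) ≤ b := by exact_mod_cast hb
    have hsz : (1 : ℤ) ≤ s := by exact_mod_cast hs
    have hez : (1 : ℤ) ≤ ee := by exact_mod_cast h0
    push_cast at hup
    exact arith1 a b s ee W' haz hbz hsz hez hWe' hup

end charzero

/-- The degrees of a pair of generators are not in a ratio `a : b` with `a, b ≥ 2` coprime. -/
theorem t_NG : S_NG.{u} := by
  intro k _ _ f g a b s c ha hb hab hs hc hJ hf hg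
  exact ng f g a b s c ha hb hab hs hc hJ hf hg

end Pool.Agent.W290.J6
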